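import Mathlib
import Pool.Agent.X81.TruthTrees4

/-!
# Acceptability has the omissibility property

If `φ` is acceptable, so is its upper translation `tr true φ` (`TruthTrees.tr_mem`), in which the
letters of `β` may be replaced by a formula that is a top element for the formulas in the letters
of `α` and `γ` (`TruthTrees.exists_top`).
-/

set_option autoImplicit false

namespace Pool.Agent.Results.MP_3f42a7_lc.Omissibility

open Pool.Agent.X81.TruthTrees

/-- The acceptable formulas: the least set `A` that contains every formula that has a truth-tree
(with the recursive rule for the implications in `A`) all of whose branches crash with parity. -/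
def A : Set Fm := Acc ParityAt

/-- **`A` has the omissibility property**; also, a formula is in `A` exactly when it has a tree
with parity whose recursive steps use implications in `A`. -/
theorem result :
    (∀ α β γ : Fm, Disjoint (letters β) (letters α) → Disjoint (letters β) (letters γ) →
      (Fm.imp (Fm.and α β) γ ∈ A ∨ Fm.imp α (Fm.or β γ) ∈ A) → Fm.imp α γ ∈ A) ∧
    (∀ φ, φ ∈ A ↔ ∃ t : TruthTree A φ, ∀ B ∈ t.branches, ParityAt B) :=
  ⟨omissibility, acc_iff ParityAt⟩

end Pool.Agent.Results.MP_3f42a7_lc.Omissibility
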